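import Mathlib

open Set Filter Topology MeasureTheory
open scoped ENNReal NNReal

namespace Pool.Agent.Lib.GMT

variable {n : ℕ}

/-- index of the dyadic cube of level `j` which contains `x` -/
noncomputable def cell (j : ℕ) (x : Fin n → ℝ) : Fin n → ℤ := fun i => ⌊(2 : ℝ) ^ j * x i⌋

/-- labels of dyadic cubes: level and index -/
abbrev Dy (n : ℕ) := ℕ × (Fin n → ℤ)

/-- the half-open dyadic cube with label `q` -/
def cube (q : Dy n) : Set (Fin n → ℝ) := {x | cell q.1 x = q.2}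

lemma mem_cube {q : Dy n} {x : Fin n → ℝ} : x ∈ cube q ↔ cell q.1 x = q.2 := Iff.rfl

lemma mem_cube_self (j : ℕ) (x : Fin n → ℝ) : x ∈ cube (j, cell j x) := rfl

lemma cell_add (j k : ℕ) (x : Fin n → ℝ) (i : Fin n) :
    cell j x i = cell (j + k) x i / ((2 ^ k : ℕ) : ℤ) := by
  unfold cell
  rw [← Int.floor_div_natCast]
  congr 1
  push_cast
  rw [pow_add]
  field_simp

lemma cell_eq_of_le {j j' : ℕ} (h : j ≤ j') {x y : Fin n → ℝ} (hxy : cell j' x = cell j' y) :
    cell j x = cell j y := by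
  obtain ⟨k, rfl⟩ := Nat.exists_eq_add_of_le h
  funext i
  rw [cell_add j k x i, cell_add j k y i, hxy]

/-- dyadic cubes are nested -/
lemma cube_subset {q g : Dy n} {x : Fin n → ℝ} (hq : x ∈ cube q) (hg : x ∈ cube g)
    (h : g.1 ≤ q.1) : cube q ⊆ cube g := by
  intro y hy
  rw [mem_cube] at *
  rw [← hg]
  exact cell_eq_of_le h (hy.trans hq.symm)

lemma eq_of_level_eq {q g : Dy n} {x : Fin n → ℝ} (hq : x ∈ cube q) (hg : x ∈ cube g)
    (h : g.1 = q.1) : g = q := by
  rw [mem_cube] at *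
  apply Prod.ext h
  rw [← hg, ← hq, h]

lemma cube_nonempty (q : Dy n) : (cube q).Nonempty := by
  refine ⟨fun i => (q.2 i : ℝ) / 2 ^ q.1, ?_⟩
  rw [mem_cube]
  funext i
  unfold cell
  rw [mul_div_cancel₀ _ (by positivity)]
  exact Int.floor_intCast _

/-- the weight `ℓ(q) ^ s` of a dyadic cube of side `ℓ(q) = 2 ^ (-level)` -/
noncomputable def wt (s : ℝ) (q : Dy n) : ℝ≥0∞ := ((2⁻¹ : ℝ≥0∞) ^ q.1) ^ s

/-- the cost of a family of cubes, as a measure on the set of labels -/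
noncomputable def cost (n : ℕ) (s : ℝ) : Measure (Dy n) :=
  Measure.sum fun q => wt s q • Measure.dirac q

lemma cost_apply (s : ℝ) (C : Set (Dy n)) : cost n s C = ∑' q, C.indicator (wt s) q := by
  unfold cost
  rw [Measure.sum_apply _ MeasurableSet.of_discrete]
  apply tsum_congr
  intro q
  rw [Measure.smul_apply, Measure.dirac_apply' _ MeasurableSet.of_discrete]
  by_cases h : q ∈ C <;> simp [h]

lemma cost_singleton (s : ℝ) (q : Dy n) : cost n s {q} = wt s q := by
  rw [cost_apply, tsum_eq_single q]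
  · simp
  · intro b hb
    simp [hb]

/-- dyadic net content of exponent `s` -/
noncomputable def content (s : ℝ) (A : Set (Fin n → ℝ)) : ℝ≥0∞ :=
  ⨅ (C : Set (Dy n)) (_ : A ⊆ ⋃ q ∈ C, cube q), cost n s C

lemma content_le {s : ℝ} {A : Set (Fin n → ℝ)} {C : Set (Dy n)} (h : A ⊆ ⋃ q ∈ C, cube q) :
    content s A ≤ cost n s C := iInf₂_le C h

lemma exists_cover {s : ℝ} {A : Set (Fin n → ℝ)} {c : ℝ≥0∞} (h : content s A < c) :
    ∃ C : Set (Dy n), A ⊆ (⋃ q ∈ C, cube q) ∧ cost n s C < c := by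
  unfold content at h
  rw [iInf_lt_iff] at h
  obtain ⟨C, hC⟩ := h
  rw [iInf_lt_iff] at hC
  obtain ⟨h1, h2⟩ := hC
  exact ⟨C, h1, h2⟩

lemma content_mono {s : ℝ} {A B : Set (Fin n → ℝ)} (h : A ⊆ B) : content s A ≤ content s B := by
  refine le_iInf₂ fun C hC => content_le (h.trans hC)

lemma content_le_wt {s : ℝ} {A : Set (Fin n → ℝ)} {q : Dy n} (h : A ⊆ cube q) :
    content s A ≤ wt s q := by
  rw [← cost_singleton]
  apply content_le
  simpa using h

lemma content_empty (s : ℝ) : content s (∅ : Set (Fin n → ℝ)) = 0 := by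
  apply le_antisymm _ zero_le
  have := content_le (s := s) (A := (∅ : Set (Fin n → ℝ))) (C := ∅) (by simp)
  simpa using this

lemma content_iUnion_le {s : ℝ} (A : ℕ → Set (Fin n → ℝ)) :
    content s (⋃ i, A i) ≤ ∑' i, content s (A i) := by
  apply ENNReal.le_of_forall_pos_le_add
  intro ε hε hfin
  obtain ⟨δ, hδ, hδs⟩ := ENNReal.exists_pos_sum_of_countable (ε := ε)
    (by exact_mod_cast hε.ne') ℕ
  have hfi : ∀ i, content s (A i) < content s (A i) + δ i := fun i =>
    ENNReal.lt_add_right (ne_top_of_le_ne_top hfin.ne (ENNReal.le_tsum i))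
      (by exact_mod_cast (hδ i).ne')
  choose C h1 h2 using fun i => exists_cover (hfi i)
  calc content s (⋃ i, A i) ≤ cost n s (⋃ i, C i) := by
        apply content_le
        intro x hx
        obtain ⟨i, hi⟩ := mem_iUnion.1 hx
        obtain ⟨q, hq, hxq⟩ := mem_iUnion₂.1 (h1 i hi)
        exact mem_iUnion₂.2 ⟨q, mem_iUnion.2 ⟨i, hq⟩, hxq⟩
    _ ≤ ∑' i, cost n s (C i) := measure_iUnion_le _
    _ ≤ ∑' i, (content s (A i) + δ i) := ENNReal.tsum_le_tsum fun i => (h2 i).le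
    _ = ∑' i, content s (A i) + ∑' i, (δ i : ℝ≥0∞) := ENNReal.tsum_add
    _ ≤ _ := by gcongr

lemma content_union_le {s : ℝ} (A B : Set (Fin n → ℝ)) :
    content s (A ∪ B) ≤ content s A + content s B := by
  have h := content_iUnion_le (s := s) (fun i : ℕ => if i = 0 then A else if i = 1 then B else ∅)
  have h1 : (⋃ i : ℕ, if i = 0 then A else if i = 1 then B else ∅) = A ∪ B := by
    ext x
    simp only [mem_iUnion, mem_union]
    constructor
    · rintro ⟨i, hi⟩
      split_ifs at hi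
      · exact Or.inl hi
      · exact Or.inr hi
      · exact hi.elim
    · rintro (h | h)
      · exact ⟨0, by simpa using h⟩
      · exact ⟨1, by simpa using h⟩
  rw [h1] at h
  refine h.trans (le_of_eq ?_)
  rw [tsum_eq_sum (s := {0, 1})]
  · simp
  · intro b hb
    simp only [Finset.mem_insert, Finset.mem_singleton, not_or] at hb
    simp [hb.1, hb.2, content_empty]

/-! ### the increasing sets lemma -/

/-- maximal cubes of a family -/
def Mx (C : Set (Dy n)) : Set (Dy n) := {q ∈ C | ∀ g ∈ C, g.1 < q.1 → ¬ cube q ⊆ cube g}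

lemma Mx_subset (C : Set (Dy n)) : Mx C ⊆ C := fun _ h => h.1

lemma cover_Mx {A : Set (Fin n → ℝ)} {C : Set (Dy n)} (h : A ⊆ ⋃ q ∈ C, cube q) :
    A ⊆ ⋃ q ∈ Mx C, cube q := by
  classical
  intro x hx
  obtain ⟨q, hq, hxq⟩ := mem_iUnion₂.1 (h hx)
  have hex : ∃ j, ∃ g ∈ C, g.1 = j ∧ x ∈ cube g := ⟨q.1, q, hq, rfl, hxq⟩
  obtain ⟨g, hg, hgj, hxg⟩ := Nat.find_spec hex
  refine mem_iUnion₂.2 ⟨g, ⟨hg, fun g' hg' hlt hsub => ?_⟩, hxg⟩
  have := Nat.find_min' hex ⟨g', hg', rfl, hsub hxg⟩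
  omega

lemma step_Mx {s : ℝ} {A A' : Set (Fin n → ℝ)} (hA : A ⊆ A') {U Q : Set (Dy n)} {c E : ℝ≥0∞}
    (hU : A ⊆ ⋃ q ∈ U, cube q) (hUc : cost n s (Mx U) ≤ content s A + E)
    (hfin : content s A ≠ ∞) (hEfin : E ≠ ∞)
    (hQ : A' ⊆ ⋃ q ∈ Q, cube q) (hQc : cost n s Q ≤ c) :
    cost n s (Mx (U ∪ Q)) ≤ c + E := by
  set G := Mx U with hG
  set G₁ : Set (Dy n) := {g ∈ G | ∀ q ∈ Q, q.1 < g.1 → ¬ cube g ⊆ cube q} with hG₁
  set Q₁ : Set (Dy n) := {q ∈ Q | ∀ g ∈ G₁, ¬ cube q ⊆ cube g} with hQ₁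
  set Q₂ : Set (Dy n) := {q ∈ Q | ∃ g ∈ G₁, cube q ⊆ cube g} with hQ₂
  have h1 : Mx (U ∪ Q) ⊆ G₁ ∪ Q₁ := by
    rintro q ⟨hq | hq, hmax⟩
    · left
      exact ⟨⟨hq, fun g hg => hmax g (Or.inl hg)⟩, fun g hg => hmax g (Or.inr hg)⟩
    · by_cases h : ∃ g ∈ G₁, cube q ⊆ cube g
      · obtain ⟨g, hg, hqg⟩ := h
        left
        obtain ⟨x, hx⟩ := cube_nonempty q
        rcases lt_trichotomy g.1 q.1 with hlt | heq | hgt
        · exact absurd hqg (hmax g (Or.inl hg.1.1) hlt)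
        · rw [← eq_of_level_eq hx (hqg hx) heq]
          exact hg
        · exact absurd (cube_subset (hqg hx) hx hgt.le) (hg.2 q hq hgt)
      · right
        push Not at h
        exact ⟨hq, h⟩
  have h2 : A ⊆ ⋃ q ∈ (G \ G₁) ∪ Q₂, cube q := by
    intro x hx
    obtain ⟨g, hg, hxg⟩ := mem_iUnion₂.1 (cover_Mx hU hx)
    by_cases hg1 : g ∈ G₁
    · obtain ⟨q, hq, hxq⟩ := mem_iUnion₂.1 (hQ (hA hx))
      refine mem_iUnion₂.2 ⟨q, Or.inr ⟨hq, g, hg1, ?_⟩, hxq⟩
      rcases lt_or_ge q.1 g.1 with hlt | hge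
      · exact absurd (cube_subset hxg hxq hlt.le) (hg1.2 q hq hlt)
      · exact cube_subset hxq hxg hge
    · exact mem_iUnion₂.2 ⟨g, Or.inl ⟨hg, hg1⟩, hxg⟩
  have h3 : cost n s G = cost n s (G \ G₁) + cost n s G₁ := by
    rw [← measure_union disjoint_sdiff_left MeasurableSet.of_discrete, sdiff_union_of_subset]
    exact fun g hg => hg.1
  have h4 : cost n s G ≠ ∞ := ne_top_of_le_ne_top (ENNReal.add_ne_top.2 ⟨hfin, hEfin⟩) hUc
  have h5 : cost n s (G \ G₁) ≠ ∞ := ne_top_of_le_ne_top h4 (measure_mono sdiff_subset)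
  have h6 : cost n s G₁ ≤ cost n s Q₂ + E := by
    have h7 : cost n s (G \ G₁) + cost n s G₁ ≤ cost n s (G \ G₁) + (cost n s Q₂ + E) := by
      calc cost n s (G \ G₁) + cost n s G₁ = cost n s G := h3.symm
        _ ≤ content s A + E := hUc
        _ ≤ cost n s ((G \ G₁) ∪ Q₂) + E := by gcongr; exact content_le h2
        _ ≤ (cost n s (G \ G₁) + cost n s Q₂) + E := by gcongr; exact measure_union_le _ _
        _ = _ := by rw [add_assoc]
    exact (ENNReal.add_le_add_iff_left h5).1 h7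
  have h8 : cost n s Q₁ + cost n s Q₂ = cost n s Q := by
    rw [← measure_union _ MeasurableSet.of_discrete]
    · congr 1
      ext q
      simp only [hQ₁, hQ₂, mem_union, mem_ofPred_eq]
      constructor
      · rintro (h | h) <;> exact h.1
      · intro hq
        by_cases h : ∃ g ∈ G₁, cube q ⊆ cube g
        · exact Or.inr ⟨hq, h⟩
        · left
          push Not at h
          exact ⟨hq, h⟩
    · rw [Set.disjoint_left]
      rintro q hq1 ⟨_, g, hg, hqg⟩
      exact hq1.2 g hg hqg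
  calc cost n s (Mx (U ∪ Q)) ≤ cost n s (G₁ ∪ Q₁) := measure_mono h1
    _ ≤ cost n s G₁ + cost n s Q₁ := measure_union_le _ _
    _ ≤ (cost n s Q₂ + E) + cost n s Q₁ := by gcongr
    _ = cost n s Q + E := by rw [← h8]; ring
    _ ≤ c + E := by gcongr

/-- The increasing sets lemma for net contents, for arbitrary (non measurable) sets. -/
theorem content_iUnion_of_mono {s : ℝ} {A : ℕ → Set (Fin n → ℝ)} (hA : Monotone A) :
    content s (⋃ j, A j) ≤ ⨆ j, content s (A j) := by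
  by_cases hfin : (⨆ j, content s (A j)) = ∞
  · rw [hfin]
    exact le_top
  have hfj : ∀ j, content s (A j) ≠ ∞ := fun j =>
    ne_top_of_le_ne_top hfin (le_iSup (fun j => content s (A j)) j)
  apply ENNReal.le_of_forall_pos_le_add
  intro ε hε _
  obtain ⟨δ, hδ, hδs⟩ := ENNReal.exists_pos_sum_of_countable (ε := ε)
    (by exact_mod_cast hε.ne') ℕ
  have hlt : ∀ j, content s (A j) < content s (A j) + δ j := fun j =>
    ENNReal.lt_add_right (hfj j) (by exact_mod_cast (hδ j).ne')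
  choose Q hQ1 hQ2 using fun j => exists_cover (hlt j)
  set U : ℕ → Set (Dy n) := fun j => ⋃ i ∈ Finset.range (j + 1), Q i with hU
  have hUsucc : ∀ j, U (j + 1) = U j ∪ Q (j + 1) := by
    intro j
    simp only [hU]
    rw [Finset.range_add_one (n := j + 1), Finset.set_biUnion_insert, union_comm]
  have hUcov : ∀ j, A j ⊆ ⋃ q ∈ U j, cube q := by
    intro j x hx
    obtain ⟨q, hq, hxq⟩ := mem_iUnion₂.1 (hQ1 j hx)
    refine mem_iUnion₂.2 ⟨q, mem_iUnion₂.2 ⟨j, by simp, hq⟩, hxq⟩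
  have hind : ∀ j, cost n s (Mx (U j)) ≤
      content s (A j) + ∑ i ∈ Finset.range (j + 1), (δ i : ℝ≥0∞) := by
    intro j
    induction j with
    | zero =>
      refine (measure_mono (Mx_subset _)).trans ?_
      have : U 0 = Q 0 := by simp [hU]
      rw [this]
      simpa using (hQ2 0).le
    | succ j ih =>
      rw [hUsucc]
      have h := step_Mx (hA (Nat.le_succ j)) (hUcov j) ih (hfj j)
        (by exact ENNReal.sum_ne_top.2 fun i _ => ENNReal.coe_ne_top) (hQ1 (j + 1)) (hQ2 (j + 1)).le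
      refine h.trans (le_of_eq ?_)
      rw [Finset.sum_range_succ _ (j + 1)]
      ring
  set V : Set (Dy n) := Mx (⋃ j, Q j) with hV
  have hVcov : (⋃ j, A j) ⊆ ⋃ q ∈ V, cube q := by
    apply cover_Mx
    intro x hx
    obtain ⟨j, hj⟩ := mem_iUnion.1 hx
    obtain ⟨q, hq, hxq⟩ := mem_iUnion₂.1 (hQ1 j hj)
    exact mem_iUnion₂.2 ⟨q, mem_iUnion.2 ⟨j, hq⟩, hxq⟩
  have hVU : V = ⋃ j, V ∩ U j := by
    ext q
    simp only [mem_iUnion, mem_inter_iff]
    constructor
    · intro hq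
      obtain ⟨j, hj⟩ := mem_iUnion.1 hq.1
      exact ⟨j, hq, mem_iUnion₂.2 ⟨j, by simp, hj⟩⟩
    · rintro ⟨j, hq, _⟩
      exact hq
  have hmono : Monotone fun j => V ∩ U j := by
    apply monotone_nat_of_le_succ
    intro j
    rw [hUsucc]
    exact inter_subset_inter_right _ subset_union_left
  calc content s (⋃ j, A j) ≤ cost n s V := content_le hVcov
    _ = ⨆ j, cost n s (V ∩ U j) := by
        conv_lhs => rw [hVU]
        exact hmono.measure_iUnion
    _ ≤ (⨆ j, content s (A j)) + ε := by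
        apply iSup_le
        intro j
        calc cost n s (V ∩ U j) ≤ cost n s (Mx (U j)) := by
              apply measure_mono
              rintro q ⟨hq, hqU⟩
              refine ⟨hqU, fun g hg => hq.2 g ?_⟩
              obtain ⟨i, _, hi⟩ := mem_iUnion₂.1 hg
              exact mem_iUnion.2 ⟨i, hi⟩
          _ ≤ content s (A j) + ∑ i ∈ Finset.range (j + 1), (δ i : ℝ≥0∞) := hind j
          _ ≤ (⨆ j, content s (A j)) + ε := by
              gcongr
              · exact le_iSup (fun j => content s (A j)) j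
              · exact (ENNReal.sum_le_tsum _).trans hδs.le

end Pool.Agent.Lib.GMT
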