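import Mathlib
import Pool.Agent.Lib.GMT.Content

open Set Filter Topology MeasureTheory
open scoped ENNReal NNReal

namespace Pool.Agent.Lib.GMT

variable {n : ℕ}

/-- an open neighbourhood of the closure of a dyadic cube -/
def bigCube (q : Dy n) : Set (Fin n → ℝ) :=
  {x | ∀ i, ((q.2 i : ℝ) - 1) < (2 : ℝ) ^ q.1 * x i ∧ (2 : ℝ) ^ q.1 * x i < (q.2 i : ℝ) + 2}

lemma isOpen_bigCube (q : Dy n) : IsOpen (bigCube q) := by
  unfold bigCube
  simp only [ofPred_forall]
  apply isOpen_iInter_of_finite
  intro i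
  have hc : Continuous fun x : Fin n → ℝ => (2 : ℝ) ^ q.1 * x i := by fun_prop
  exact (isOpen_lt continuous_const hc).inter (isOpen_lt hc continuous_const)

lemma cube_subset_bigCube (q : Dy n) : cube q ⊆ bigCube q := by
  intro x hx i
  rw [mem_cube] at hx
  have h := congrFun hx i
  unfold cell at h
  have h1 := Int.floor_le ((2 : ℝ) ^ q.1 * x i)
  have h2 := Int.lt_floor_add_one ((2 : ℝ) ^ q.1 * x i)
  rw [h] at h1 h2
  constructor <;> linarith

/-- labels of the neighbours of a cube -/
def nbrs (q : Dy n) (e : Fin n → Fin 3) : Dy n := (q.1, fun i => q.2 i + ((e i : ℕ) : ℤ) - 1)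

lemma bigCube_subset (q : Dy n) : bigCube q ⊆ ⋃ e, cube (nbrs q e) := by
  intro x hx
  have h : ∀ i, ∃ e : Fin 3, ⌊(2 : ℝ) ^ q.1 * x i⌋ = q.2 i + ((e : ℕ) : ℤ) - 1 := by
    intro i
    obtain ⟨h1, h2⟩ := hx i
    have h3 : q.2 i - 1 ≤ ⌊(2 : ℝ) ^ q.1 * x i⌋ := by
      rw [Int.le_floor]
      push_cast
      linarith
    have h4 : ⌊(2 : ℝ) ^ q.1 * x i⌋ < q.2 i + 2 := by
      rw [Int.floor_lt]
      push_cast
      linarith
    refine ⟨⟨(⌊(2 : ℝ) ^ q.1 * x i⌋ - q.2 i + 1).toNat, by omega⟩, ?_⟩
    simp only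
    omega
  choose e he using h
  refine mem_iUnion.2 ⟨e, ?_⟩
  rw [mem_cube]
  funext i
  exact he i

lemma content_biUnion_bigCube_le {s : ℝ} (C : Set (Dy n)) :
    content s (⋃ q ∈ C, bigCube q) ≤ (3 ^ n : ℕ) * cost n s C := by
  have h1 : (⋃ q ∈ C, bigCube q) ⊆ ⋃ e : Fin n → Fin 3, ⋃ q ∈ C, cube (nbrs q e) := by
    intro x hx
    obtain ⟨q, hq, hxq⟩ := mem_iUnion₂.1 hx
    obtain ⟨e, he⟩ := mem_iUnion.1 (bigCube_subset q hxq)
    exact mem_iUnion.2 ⟨e, mem_iUnion₂.2 ⟨q, hq, he⟩⟩
  have h2 : content s (⋃ q ∈ C, bigCube q) ≤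
      cost n s (⋃ e : Fin n → Fin 3, (fun q => nbrs q e) '' C) := by
    apply content_le
    intro x hx
    obtain ⟨e, he⟩ := mem_iUnion.1 (h1 hx)
    obtain ⟨q, hq, hxq⟩ := mem_iUnion₂.1 he
    exact mem_iUnion₂.2 ⟨nbrs q e, mem_iUnion.2 ⟨e, mem_image_of_mem _ hq⟩, hxq⟩
  refine h2.trans ((measure_iUnion_le _).trans ?_)
  have h3 : ∀ e : Fin n → Fin 3, cost n s ((fun q => nbrs q e) '' C) = cost n s C := by
    intro e
    rw [cost_apply, cost_apply]
    have hbij : Function.Bijective (fun q : Dy n => nbrs q e) := by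
      constructor
      · intro q q' h
        simp only [nbrs, Prod.mk.injEq] at h
        apply Prod.ext h.1
        funext i
        have := congrFun h.2 i
        omega
      · intro q
        refine ⟨(q.1, fun i => q.2 i - ((e i : ℕ) : ℤ) + 1), ?_⟩
        refine Prod.ext rfl (funext fun i => ?_)
        simp only [nbrs]
        omega
    rw [← (Equiv.ofBijective _ hbij).tsum_eq]
    apply tsum_congr
    intro q
    simp only [Equiv.ofBijective_apply]
    by_cases h : q ∈ C
    · rw [indicator_of_mem (mem_image_of_mem _ h), indicator_of_mem h]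
      rfl
    · rw [indicator_of_notMem h, indicator_of_notMem]
      rintro ⟨q', hq', he⟩
      exact h (hbij.1 he ▸ hq')
  rw [tsum_fintype]
  simp only [h3]
  rw [Finset.sum_const, nsmul_eq_mul]
  simp

/-- Capacitability: a Borel set of positive content contains a compact set of positive content. -/
theorem exists_compact_content {s : ℝ} {E : Set (Fin n → ℝ)} (hE : MeasurableSet E)
    (h : content s E ≠ 0) : ∃ K ⊆ E, IsCompact K ∧ content s K ≠ 0 := by
  have hana := hE.analyticSet
  rw [AnalyticSet] at hana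
  rcases hana with rfl | ⟨f, hf, rfl⟩
  · exact absurd (content_empty s) h
  obtain ⟨c, hc0, hc⟩ : ∃ c, 0 < c ∧ c < content s (range f) := by
    obtain ⟨c, h1, h2⟩ := exists_between (pos_iff_ne_zero.2 h)
    exact ⟨c, h1, h2⟩
  -- the sets with bounds on the first coordinates
  set S : (ℕ → ℕ) → ℕ → Set (ℕ → ℕ) := fun b k => {σ | ∀ i, i < k → σ i ≤ b i} with hS
  have hext : ∀ (k : ℕ) (b : ℕ → ℕ), c < content s (f '' S b k) →
      ∃ m, c < content s (f '' S (Function.update b k m) (k + 1)) := by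
    intro k b hb
    have h1 : f '' S b k = ⋃ m, f '' S (Function.update b k m) (k + 1) := by
      rw [← image_iUnion]
      congr 1
      ext σ
      simp only [hS, mem_iUnion, mem_ofPred_eq]
      constructor
      · intro hσ
        refine ⟨σ k, fun i hi => ?_⟩
        rcases Nat.lt_succ_iff_lt_or_eq.1 hi with h2 | h2
        · rw [Function.update_of_ne h2.ne]
          exact hσ i h2
        · rw [h2, Function.update_self]
      · rintro ⟨m, hm⟩ i hi
        have := hm i (by omega)
        rwa [Function.update_of_ne hi.ne] at this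
    have h2 : Monotone fun m => f '' S (Function.update b k m) (k + 1) := by
      intro m m' hmm
      apply image_mono
      intro σ hσ i hi
      refine (hσ i hi).trans ?_
      by_cases hik : i = k
      · subst hik
        simpa using hmm
      · rw [Function.update_of_ne hik, Function.update_of_ne hik]
    rw [h1] at hb
    exact lt_iSup_iff.1 (hb.trans_le (content_iUnion_of_mono h2))
  choose! m hm using hext
  -- build the bounds recursively
  let B : ℕ → (ℕ → ℕ) := fun k => Nat.rec (fun _ => 0) (fun k b => Function.update b k (m k b)) k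
  have hB : ∀ k, c < content s (f '' S (B k) k) := by
    intro k
    induction k with
    | zero =>
      have : S (B 0) 0 = univ := by
        ext σ
        simp [hS]
      rw [this, image_univ]
      exact hc
    | succ k ih => exact hm k (B k) ih
  set b : ℕ → ℕ := fun i => B (i + 1) i with hb
  have hBb : ∀ k i, i < k → B k i = b i := by
    intro k
    induction k with
    | zero => intro i hi; omega
    | succ k ih =>
      intro i hi
      rcases Nat.lt_succ_iff_lt_or_eq.1 hi with h2 | h2
      · change Function.update (B k) k (m k (B k)) i = b i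
        rw [Function.update_of_ne h2.ne]
        exact ih i h2
      · rw [h2]
  have hSb : ∀ k, c < content s (f '' S b k) := by
    intro k
    have : S b k = S (B k) k := by
      ext σ
      simp only [hS, mem_ofPred_eq]
      refine forall₂_congr fun i hi => ?_
      rw [hBb k i hi]
    rw [this]
    exact hB k
  set L : Set (ℕ → ℕ) := univ.pi fun i => Iic (b i) with hL
  have hLc : IsCompact L := isCompact_univ_pi fun i => (finite_Iic (b i)).isCompact
  refine ⟨f '' L, image_subset_range _ _, hLc.image hf, ?_⟩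
  intro h0
  have hpos : (0 : ℝ≥0∞) < c / (3 ^ n : ℕ) := ENNReal.div_pos hc0.ne' (ENNReal.natCast_ne_top _)
  obtain ⟨C, hC1, hC2⟩ := exists_cover (h0.trans_lt hpos)
  set O : Set (Fin n → ℝ) := ⋃ q ∈ C, bigCube q with hO
  have hOo : IsOpen O := isOpen_biUnion fun q _ => isOpen_bigCube q
  have hKO : f '' L ⊆ O := hC1.trans (iUnion₂_mono fun q _ => cube_subset_bigCube q)
  have hex : ∃ k, f '' S b k ⊆ O := by
    by_contra hcon
    push Not at hcon
    have hcon' : ∀ k, ∃ σ ∈ S b k, f σ ∉ O := by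
      intro k
      obtain ⟨y, ⟨σ, hσ, rfl⟩, hy⟩ := not_subset.1 (hcon k)
      exact ⟨σ, hσ, hy⟩
    choose σ hσ1 hσ2 using hcon'
    set τ : ℕ → (ℕ → ℕ) := fun k i => min (σ k i) (b i) with hτ
    have hτL : ∀ k, τ k ∈ L := by
      intro k
      rw [hL, mem_univ_pi]
      intro i
      exact min_le_right (σ k i) (b i)
    obtain ⟨τ₀, hτ₀, φ, hφ, hlim⟩ := hLc.tendsto_subseq hτL
    have hlim2 : Tendsto (σ ∘ φ) atTop (𝓝 τ₀) := by
      rw [tendsto_pi_nhds] at hlim ⊢
      intro i
      refine (hlim i).congr' ?_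
      filter_upwards [eventually_gt_atTop i] with k hk
      simp only [Function.comp, hτ]
      have := hσ1 (φ k) i (hk.trans_le (hφ.id_le k))
      exact min_eq_left this
    have hlim3 := (hf.tendsto τ₀).comp hlim2
    have hmem : f τ₀ ∈ O := hKO (mem_image_of_mem f hτ₀)
    obtain ⟨k, hk⟩ := (hlim3.eventually (hOo.mem_nhds hmem)).exists
    exact hσ2 (φ k) hk
  obtain ⟨k, hk⟩ := hex
  have h1 : c < (3 ^ n : ℕ) * cost n s C :=
    (hSb k).trans_le ((content_mono hk).trans (content_biUnion_bigCube_le C))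
  have h2 : ((3 ^ n : ℕ) : ℝ≥0∞) * cost n s C ≤ c := by
    calc ((3 ^ n : ℕ) : ℝ≥0∞) * cost n s C ≤ (3 ^ n : ℕ) * (c / (3 ^ n : ℕ)) := by gcongr
      _ ≤ c := ENNReal.mul_div_le
  exact absurd h1 (not_lt.2 h2)

end Pool.Agent.Lib.GMT
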