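import Mathlib
import Pool.Agent.Lib.GMT.Content
import Pool.Agent.Lib.GMT.Capacity

open Set Filter Topology MeasureTheory
open scoped ENNReal NNReal

namespace Pool.Agent.Lib.GMT

variable {n : ℕ}

lemma dist_le_of_cell_eq {j : ℕ} {x y : Fin n → ℝ} (h : cell j x = cell j y) :
    dist x y ≤ (2⁻¹ : ℝ) ^ j := by
  rw [dist_pi_le_iff (by positivity)]
  intro i
  have h1 := congrFun h i
  unfold cell at h1
  have h2 := Int.abs_sub_lt_one_of_floor_eq_floor h1
  rw [← mul_sub, abs_mul, abs_of_pos (by positivity : (0 : ℝ) < 2 ^ j)] at h2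
  rw [Real.dist_eq, inv_pow, inv_eq_one_div, le_div_iff₀ (by positivity)]
  linarith

lemma ediam_cube_le (q : Dy n) : Metric.ediam (cube q) ≤ (2⁻¹ : ℝ≥0∞) ^ q.1 := by
  apply Metric.ediam_le
  intro x hx y hy
  rw [edist_dist]
  have h := dist_le_of_cell_eq ((mem_cube.1 hx).trans (mem_cube.1 hy).symm)
  refine (ENNReal.ofReal_le_ofReal h).trans (le_of_eq ?_)
  rw [ENNReal.ofReal_pow (by norm_num), ENNReal.ofReal_inv_of_pos (by norm_num)]
  norm_num

/-- sets of zero content have small dimension -/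
lemma dimH_le_of_content_eq_zero {s : ℝ≥0} (hs : 0 < s) {A : Set (Fin n → ℝ)}
    (h : content (s : ℝ) A = 0) : dimH A ≤ s := by
  have hs' : (0 : ℝ) < s := hs
  have hcov : ∀ m : ℕ, ∃ C : Set (Dy n), A ⊆ (⋃ q ∈ C, cube q) ∧ cost n s C < 2⁻¹ ^ m := fun m =>
    exists_cover (h.trans_lt (ENNReal.pow_pos (by simp) m))
  choose C h1 h2 using hcov
  have hwt : ∀ m, ∀ q ∈ C m, wt (s : ℝ) q ≤ 2⁻¹ ^ m := by
    intro m q hq
    rw [← cost_singleton]
    exact (measure_mono (singleton_subset_iff.2 hq)).trans (h2 m).le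
  have hed : ∀ q : Dy n, Metric.ediam (cube q) ^ (s : ℝ) ≤ wt (s : ℝ) q := fun q =>
    ENNReal.rpow_le_rpow (ediam_cube_le q) hs'.le
  have h3 := MeasureTheory.Measure.hausdorffMeasure_le_liminf_tsum (X := Fin n → ℝ) (s : ℝ) A
    (l := atTop) (ι := fun m : ℕ => C m) (fun m : ℕ => ((2⁻¹ : ℝ≥0∞) ^ m) ^ (s : ℝ)⁻¹) ?_
    (fun m q => cube q.1) ?_ ?_
  · have h4 : μH[(s : ℝ)] A ≤ 1 := by
      refine h3.trans ?_
      refine liminf_le_of_le (by isBoundedDefault) ?_
      intro b hb
      obtain ⟨m, hm⟩ := hb.exists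
      refine hm.trans ?_
      calc ∑' q : C m, Metric.ediam (cube q.1) ^ (s : ℝ) ≤ ∑' q : C m, wt (s : ℝ) q.1 :=
            ENNReal.tsum_le_tsum fun q => hed q.1
        _ = cost n s (C m) := by
            rw [cost_apply, tsum_subtype]
        _ ≤ 1 := (h2 m).le.trans (pow_le_one₀ (by positivity) (by simp))
    exact dimH_le_of_hausdorffMeasure_ne_top (ne_top_of_le_ne_top ENNReal.one_ne_top h4)
  · have h4 : Tendsto (fun m : ℕ => (2⁻¹ : ℝ≥0∞) ^ m) atTop (𝓝 0) :=
      ENNReal.tendsto_pow_atTop_nhds_zero_of_lt_one (by simp)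
    have h5 := (ENNReal.continuous_rpow_const (y := (s : ℝ)⁻¹)).tendsto 0
    rw [ENNReal.zero_rpow_of_pos (by positivity)] at h5
    exact h5.comp h4
  · refine Eventually.of_forall fun m q => ?_
    calc Metric.ediam (cube q.1) = (Metric.ediam (cube q.1) ^ (s : ℝ)) ^ (s : ℝ)⁻¹ := by
          rw [← ENNReal.rpow_mul, mul_inv_cancel₀ hs'.ne', ENNReal.rpow_one]
      _ ≤ _ := ENNReal.rpow_le_rpow ((hed q.1).trans (hwt m q.1 q.2)) (by positivity)
  · refine Eventually.of_forall fun m x hx => ?_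
    obtain ⟨q, hq, hxq⟩ := mem_iUnion₂.1 (h1 m hx)
    exact mem_iUnion.2 ⟨⟨q, hq⟩, hxq⟩

lemma wt_anti {s : ℝ} (hs : 0 ≤ s) {q q' : Dy n} (h : q.1 ≤ q'.1) : wt s q' ≤ wt s q := by
  unfold wt
  apply ENNReal.rpow_le_rpow _ hs
  exact pow_le_pow_of_le_one (by positivity) (by simp) h

lemma wt_ne_top {s : ℝ} (hs : 0 ≤ s) (q : Dy n) : wt s q ≠ ∞ := by
  unfold wt
  exact ENNReal.rpow_ne_top_of_nonneg hs (by simp)

lemma wt_pos {s : ℝ} (q : Dy n) : wt s q ≠ 0 := by
  unfold wt
  intro h
  rw [ENNReal.rpow_eq_zero_iff] at h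
  rcases h with h | h
  · simp at h
  · simp at h

/-- children of a dyadic cube -/
def child (q : Dy n) (e : Fin n → Fin 2) : Dy n := (q.1 + 1, fun i => 2 * q.2 i + ((e i : ℕ) : ℤ))

lemma cube_eq_iUnion_child (q : Dy n) : cube q ⊆ ⋃ e, cube (child q e) := by
  intro x hx
  have h : ∀ i, ∃ e : Fin 2, cell (q.1 + 1) x i = 2 * q.2 i + ((e : ℕ) : ℤ) := by
    intro i
    have h1 := cell_add q.1 1 x i
    rw [mem_cube] at hx
    rw [hx] at h1
    refine ⟨⟨(cell (q.1 + 1) x i - 2 * q.2 i).toNat, ?_⟩, ?_⟩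
    · simp only [pow_one] at h1
      omega
    · simp only [pow_one] at h1
      simp only
      omega
  choose e he using h
  exact mem_iUnion.2 ⟨e, by rw [mem_cube]; funext i; exact he i⟩

lemma child_disjoint (q : Dy n) {e e' : Fin n → Fin 2} {x : Fin n → ℝ}
    (h : x ∈ cube (child q e)) (h' : x ∈ cube (child q e')) : e = e' := by
  rw [mem_cube] at h h'
  have h1 := h.symm.trans h'
  funext i
  have h2 := congrFun h1 i
  simp only [child] at h2
  apply Fin.ext
  omega

lemma measurable_cell (j : ℕ) : Measurable (cell (n := n) j) := by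
  unfold cell
  apply measurable_pi_lambda
  intro i
  exact Int.measurable_floor.comp ((measurable_pi_apply i).const_mul _)

lemma measurableSet_cube (q : Dy n) : MeasurableSet (cube q) :=
  measurable_cell q.1 (measurableSet_singleton q.2)

/-- finite level version of Frostman's lemma -/
lemma frostman_level {s : ℝ} (hs : 0 ≤ s) {K : Set (Fin n → ℝ)} (hK : MeasurableSet K) (N : ℕ) :
    ∀ i : ℕ, ∀ q : Dy n, q.1 + i = N → ∃ ν : Measure (Fin n → ℝ),
      ν (K ∩ cube q)ᶜ = 0 ∧ content s (K ∩ cube q) ≤ ν univ ∧ ν univ ≤ wt s q ∧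
      ∀ q' : Dy n, q'.1 ≤ N → ν (cube q') ≤ wt s q' := by
  intro i
  induction i with
  | zero =>
    intro q hq
    rw [add_zero] at hq
    by_cases h : (K ∩ cube q).Nonempty
    · obtain ⟨x, hx⟩ := h
      refine ⟨wt s q • Measure.dirac x, ?_, ?_, ?_, ?_⟩
      · rw [Measure.smul_apply, Measure.dirac_apply' _ (hK.inter (measurableSet_cube q)).compl]
        simp [hx]
      · rw [Measure.smul_apply, Measure.dirac_apply_of_mem (mem_univ x), smul_eq_mul, mul_one]
        exact content_le_wt inter_subset_right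
      · rw [Measure.smul_apply, Measure.dirac_apply_of_mem (mem_univ x), smul_eq_mul, mul_one]
      · intro q' hq'
        rw [Measure.smul_apply, smul_eq_mul]
        calc wt s q * Measure.dirac x (cube q') ≤ wt s q * 1 := by gcongr; exact prob_le_one
          _ ≤ wt s q' := by rw [mul_one]; exact wt_anti hs (by omega)
    · rw [not_nonempty_iff_eq_empty] at h
      refine ⟨0, by simp, ?_, by simp, fun q' _ => by simp⟩
      rw [h, content_empty]
      exact zero_le
  | succ i ih =>
    intro q hq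
    have hch : ∀ e : Fin n → Fin 2, (child q e).1 + i = N := fun e => by
      simp only [child]
      omega
    choose ν h1 h2 h3 h4 using fun e => ih (child q e) (hch e)
    set ν₀ : Measure (Fin n → ℝ) := ∑ e, ν e with hν₀
    have hsub : ∀ e, cube (child q e) ⊆ cube q := by
      intro e x hx
      rw [mem_cube] at hx ⊢
      funext i
      rw [cell_add q.1 1 x i]
      have := congrFun hx i
      simp only [child] at this
      rw [this]
      have := (e i).2
      simp only [pow_one]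
      omega
    have hsupp : ν₀ (K ∩ cube q)ᶜ = 0 := by
      rw [hν₀, Measure.finsetSum_apply]
      apply Finset.sum_eq_zero
      intro e _
      refine measure_mono_null ?_ (h1 e)
      exact compl_subset_compl.2 (inter_subset_inter_right _ (hsub e))
    have hcont : content s (K ∩ cube q) ≤ ν₀ univ := by
      have h5 : K ∩ cube q ⊆ ⋃ e, K ∩ cube (child q e) := by
        rintro x ⟨hxK, hxq⟩
        obtain ⟨e, he⟩ := mem_iUnion.1 (cube_eq_iUnion_child q hxq)
        exact mem_iUnion.2 ⟨e, hxK, he⟩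
      rw [hν₀, Measure.finsetSum_apply]
      refine le_trans ?_ (Finset.sum_le_sum fun e _ => h2 e)
      refine (content_mono h5).trans ?_
      have hfin : ∀ F : Finset (Fin n → Fin 2), content s (⋃ e ∈ F, K ∩ cube (child q e)) ≤
          ∑ e ∈ F, content s (K ∩ cube (child q e)) := by
        classical
        intro F
        induction F using Finset.induction_on with
        | empty => simp [content_empty]
        | insert a F ha ihF =>
          rw [Finset.set_biUnion_insert, Finset.sum_insert ha]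
          exact (content_union_le _ _).trans (by gcongr)
      simpa using hfin Finset.univ
    have hcube : ∀ q' : Dy n, q.1 + 1 ≤ q'.1 → q'.1 ≤ N → ν₀ (cube q') ≤ wt s q' := by
      intro q' hq1 hq2
      rw [hν₀, Measure.finsetSum_apply]
      by_cases hex : ∃ e, (cube q' ∩ cube (child q e)).Nonempty
      · obtain ⟨e, x, hx1, hx2⟩ := hex
        have hsub' : cube q' ⊆ cube (child q e) := cube_subset hx1 hx2 hq1
        rw [Finset.sum_eq_single e]
        · exact h4 e q' hq2
        · intro e' _ hne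
          refine measure_mono_null ?_ (h1 e')
          intro y hy
          simp only [mem_compl_iff, mem_inter_iff, not_and]
          intro _ hy'
          exact hne (child_disjoint q hy' (hsub' hy))
        · simp
      · push Not at hex
        rw [Finset.sum_eq_zero]
        · exact zero_le
        · intro e _
          refine measure_mono_null ?_ (h1 e)
          intro y hy
          simp only [mem_compl_iff, mem_inter_iff, not_and]
          intro _ hy'
          have : y ∈ cube q' ∩ cube (child q e) := ⟨hy, hy'⟩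
          rw [hex e] at this
          exact this
    by_cases hT : ν₀ univ ≤ wt s q
    · refine ⟨ν₀, hsupp, hcont, hT, fun q' hq' => ?_⟩
      rcases Nat.lt_or_ge q.1 q'.1 with hlt | hge
      · exact hcube q' hlt hq'
      · exact (measure_mono (subset_univ _)).trans (hT.trans (wt_anti hs hge))
    · push Not at hT
      have hTfin : ν₀ univ ≠ ∞ := by
        rw [hν₀, Measure.finsetSum_apply]
        exact ENNReal.sum_ne_top.2 fun e _ => ne_top_of_le_ne_top (wt_ne_top hs _) (h3 e)
      have hT0 : ν₀ univ ≠ 0 := ((pos_iff_ne_zero.2 (wt_pos q)).trans hT).ne'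
      set a : ℝ≥0∞ := wt s q / ν₀ univ with ha
      have ha1 : a ≤ 1 := ENNReal.div_le_of_le_mul (by rw [one_mul]; exact hT.le)
      have hau : (a • ν₀) univ = wt s q := by
        rw [Measure.smul_apply, smul_eq_mul, ha, ENNReal.div_mul_cancel hT0 hTfin]
      refine ⟨a • ν₀, ?_, ?_, ?_, fun q' hq' => ?_⟩
      · rw [Measure.smul_apply, hsupp, smul_zero]
      · rw [hau]
        exact content_le_wt inter_subset_right
      · rw [hau]
      · rcases Nat.lt_or_ge q.1 q'.1 with hlt | hge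
        · rw [Measure.smul_apply, smul_eq_mul]
          calc a * ν₀ (cube q') ≤ 1 * ν₀ (cube q') := by gcongr
            _ ≤ wt s q' := by rw [one_mul]; exact hcube q' hlt hq'
        · refine (measure_mono (subset_univ _)).trans ?_
          rw [hau]
          exact wt_anti hs hge

/-- A ball is covered by the neighbours of a dyadic cube of comparable size. -/
lemma ball_subset {x : Fin n → ℝ} {j : ℕ} {r : ℝ} (hr : r ≤ (2⁻¹ : ℝ) ^ j) :
    Metric.ball x r ⊆ ⋃ e, cube (nbrs (j, cell j x) e) := by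
  intro y hy
  apply bigCube_subset
  intro i
  have h1 : |y i - x i| < r := by
    rw [← Real.dist_eq]
    exact (dist_le_pi_dist y x i).trans_lt hy
  have h2 : |(2 : ℝ) ^ j * y i - 2 ^ j * x i| < 1 := by
    rw [← mul_sub, abs_mul, abs_of_pos (by positivity : (0 : ℝ) < 2 ^ j)]
    calc (2 : ℝ) ^ j * |y i - x i| < 2 ^ j * r := by gcongr
      _ ≤ 2 ^ j * (2⁻¹ : ℝ) ^ j := by gcongr
      _ = 1 := by rw [← mul_pow]; norm_num
  rw [abs_lt] at h2
  have h3 := Int.floor_le ((2 : ℝ) ^ j * x i)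
  have h4 := Int.lt_floor_add_one ((2 : ℝ) ^ j * x i)
  simp only [cell]
  constructor <;> linarith

/-- **Frostman's lemma** for compact sets of positive content. -/
theorem frostman_compact {s : ℝ} (hs : 0 ≤ s) {K : Set (Fin n → ℝ)} (hK : IsCompact K)
    {q₀ : Dy n} (hKq : K ⊆ cube q₀) (hc : content s K ≠ 0) :
    ∃ μ : ProbabilityMeasure (Fin n → ℝ), (μ : Measure (Fin n → ℝ)) Kᶜ = 0 ∧ ∃ C : ℝ, 0 < C ∧
      ∀ x r, 0 < r → (μ : Measure (Fin n → ℝ)) (Metric.closedBall x r) ≤ ENNReal.ofReal (C * r ^ s) := by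
  have hKm := hK.isClosed.measurableSet
  -- measures of level `N`
  have hex : ∀ N : ℕ, ∃ ν : Measure (Fin n → ℝ), ν Kᶜ = 0 ∧ content s K ≤ ν univ ∧ ν univ ≠ ∞ ∧
      ∀ q' : Dy n, q'.1 ≤ q₀.1 + N → ν (cube q') ≤ wt s q' := by
    intro N
    obtain ⟨ν, h1, h2, h3, h4⟩ := frostman_level hs hKm (q₀.1 + N) N q₀ rfl
    rw [inter_eq_left.2 hKq] at h1 h2
    exact ⟨ν, h1, h2, ne_top_of_le_ne_top (wt_ne_top hs q₀) h3, h4⟩
  choose ν h1 h2 h3 h4 using hex
  set c₀ := content s K with hc₀
  have hc₀fin : c₀ ≠ ∞ := ne_top_of_le_ne_top (h3 0) (h2 0)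
  have hν0 : ∀ N, ν N univ ≠ 0 := fun N h => hc (le_antisymm (h ▸ h2 N) zero_le)
  let μs : ℕ → ProbabilityMeasure (Fin n → ℝ) := fun N => ⟨(ν N univ)⁻¹ • ν N, ⟨by
    rw [Measure.smul_apply, smul_eq_mul, ENNReal.inv_mul_cancel (hν0 N) (h3 N)]⟩⟩
  have hμs : ∀ N (A : Set (Fin n → ℝ)), (μs N : Measure (Fin n → ℝ)) A = (ν N univ)⁻¹ * ν N A :=
    fun N A => rfl
  have hμK : ∀ N, (μs N : Measure (Fin n → ℝ)) Kᶜ = 0 := by
    intro N
    rw [hμs, h1, mul_zero]
  have hμq : ∀ N (q' : Dy n), q'.1 ≤ q₀.1 + N →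
      (μs N : Measure (Fin n → ℝ)) (cube q') ≤ c₀⁻¹ * wt s q' := by
    intro N q' hq'
    rw [hμs]
    exact mul_le_mul' (ENNReal.inv_le_inv.2 (h2 N)) (h4 N q' hq')
  have hcomp := isCompact_setOfPred_probabilityMeasure_mass_eq_compl_isCompact_le
    (E := Fin n → ℝ) (u := fun _ => (0 : ℝ≥0)) (K := fun _ => K) tendsto_const_nhds (fun _ => hK)
    (Or.inr monotone_const)
  obtain ⟨μ, hμ, φ, hφ, hlim⟩ := hcomp.tendsto_subseq (x := μs) (fun N _ => by
    have := hμK N
    rw [← ENNReal.coe_le_coe]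
    simpa using this.le)
  refine ⟨μ, ?_, (3 ^ n : ℕ) * c₀.toReal⁻¹ * 4 ^ s + 2 ^ s, by positivity, ?_⟩
  · have := hμ 0
    simp only [nonpos_iff_eq_zero] at this
    rw [← ENNReal.coe_eq_zero] at this
    simpa using this
  intro x r hr
  have hC1 : 0 ≤ (3 ^ n : ℕ) * c₀.toReal⁻¹ * (4 : ℝ) ^ s := by positivity
  rcases le_or_gt (1 / 2) r with hr1 | hr1
  · -- large radii
    refine prob_le_one.trans ?_
    rw [← ENNReal.ofReal_one]
    apply ENNReal.ofReal_le_ofReal
    have h5 : (1 : ℝ) ≤ 2 ^ s * r ^ s := by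
      rw [← Real.mul_rpow (by norm_num) hr.le]
      apply Real.one_le_rpow _ hs
      linarith
    have h6 : 0 ≤ r ^ s := by positivity
    nlinarith
  · -- small radii
    obtain ⟨j, hj1, hj2⟩ : ∃ j : ℕ, 2 * r ≤ (2⁻¹ : ℝ) ^ j ∧ (2⁻¹ : ℝ) ^ j ≤ 4 * r := by
      obtain ⟨j, h5, h6⟩ := exists_nat_pow_near_of_lt_one (x := 2 * r) (y := (2⁻¹ : ℝ))
        (by linarith) (by linarith) (by norm_num) (by norm_num)
      refine ⟨j, h6, ?_⟩
      rw [pow_succ] at h5
      linarith
    have h5 : (μ : Measure (Fin n → ℝ)) (Metric.ball x (2 * r)) ≤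
        liminf (fun N => (μs (φ N) : Measure (Fin n → ℝ)) (Metric.ball x (2 * r))) atTop :=
      ProbabilityMeasure.le_liminf_measure_open_of_tendsto hlim Metric.isOpen_ball
    have h6 : ∀ᶠ N in atTop, (μs (φ N) : Measure (Fin n → ℝ)) (Metric.ball x (2 * r)) ≤
        ENNReal.ofReal ((3 ^ n : ℕ) * c₀.toReal⁻¹ * 4 ^ s * r ^ s) := by
      filter_upwards [eventually_ge_atTop j] with N hN
      have hN' : j ≤ q₀.1 + φ N := by
        have := hφ.id_le N
        simp only [id] at this
        omega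
      calc (μs (φ N) : Measure (Fin n → ℝ)) (Metric.ball x (2 * r))
          ≤ (μs (φ N) : Measure (Fin n → ℝ)) (⋃ e, cube (nbrs (j, cell j x) e)) :=
            measure_mono (ball_subset hj1)
        _ ≤ ∑' e, (μs (φ N) : Measure (Fin n → ℝ)) (cube (nbrs (j, cell j x) e)) :=
            measure_iUnion_le _
        _ ≤ ∑' _e : Fin n → Fin 3, c₀⁻¹ * wt s ((j, cell j x) : Dy n) := by
            apply ENNReal.tsum_le_tsum
            intro e
            exact hμq (φ N) _ hN'
        _ = (3 ^ n : ℕ) * (c₀⁻¹ * wt s ((j, cell j x) : Dy n)) := by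
            rw [tsum_fintype, Finset.sum_const, nsmul_eq_mul]
            simp
        _ ≤ ENNReal.ofReal ((3 ^ n : ℕ) * c₀.toReal⁻¹ * 4 ^ s * r ^ s) := by
            have h7 : wt s ((j, cell j x) : Dy n) ≤ ENNReal.ofReal (4 ^ s * r ^ s) := by
              unfold wt
              rw [← Real.mul_rpow (by norm_num) hr.le,
                ← ENNReal.ofReal_rpow_of_nonneg (by positivity) hs]
              apply ENNReal.rpow_le_rpow _ hs
              have h8 : ((2⁻¹ : ℝ≥0∞)) ^ j = ENNReal.ofReal ((2⁻¹ : ℝ) ^ j) := by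
                rw [ENNReal.ofReal_pow (by norm_num), ENNReal.ofReal_inv_of_pos (by norm_num)]
                norm_num
              simp only
              rw [h8]
              exact ENNReal.ofReal_le_ofReal hj2
            have h9 : c₀⁻¹ = ENNReal.ofReal (c₀.toReal⁻¹) := by
              rw [ENNReal.ofReal_inv_of_pos (ENNReal.toReal_pos hc hc₀fin),
                ENNReal.ofReal_toReal hc₀fin]
            rw [mul_assoc, mul_assoc, ENNReal.ofReal_mul (by positivity),
              ENNReal.ofReal_mul (by positivity), ENNReal.ofReal_natCast, h9]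
            gcongr
    calc (μ : Measure (Fin n → ℝ)) (Metric.closedBall x r)
        ≤ (μ : Measure (Fin n → ℝ)) (Metric.ball x (2 * r)) :=
          measure_mono (Metric.closedBall_subset_ball (by linarith))
      _ ≤ liminf (fun N => (μs (φ N) : Measure (Fin n → ℝ)) (Metric.ball x (2 * r))) atTop := h5
      _ ≤ ENNReal.ofReal ((3 ^ n : ℕ) * c₀.toReal⁻¹ * 4 ^ s * r ^ s) := by
          refine liminf_le_of_le (by isBoundedDefault) ?_
          intro b hb
          obtain ⟨N, hN1, hN2⟩ := (hb.and h6).exists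
          exact hN1.trans hN2
      _ ≤ _ := by
          apply ENNReal.ofReal_le_ofReal
          have : (0 : ℝ) ≤ 2 ^ s * r ^ s := by positivity
          nlinarith

/-- **Frostman's lemma** for Borel sets of large dimension, in `Fin n → ℝ`. -/
theorem frostman_pi {s : ℝ≥0} (hs : 0 < s) {E : Set (Fin n → ℝ)} (hE : MeasurableSet E)
    (hd : (s : ℝ≥0∞) < dimH E) :
    ∃ K ⊆ E, IsCompact K ∧ ∃ μ : ProbabilityMeasure (Fin n → ℝ),
      (μ : Measure (Fin n → ℝ)) Kᶜ = 0 ∧ ∃ C : ℝ, 0 < C ∧
      ∀ x r, 0 < r →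
        (μ : Measure (Fin n → ℝ)) (Metric.closedBall x r) ≤ ENNReal.ofReal (C * r ^ (s : ℝ)) := by
  have h0 : content (s : ℝ) E ≠ 0 := fun h => absurd hd (not_lt.2 (dimH_le_of_content_eq_zero hs h))
  have hq : ∃ k : Fin n → ℤ, content (s : ℝ) (E ∩ cube (0, k)) ≠ 0 := by
    by_contra hcon
    push Not at hcon
    apply h0
    have hcount : Countable (Fin n → ℤ) := inferInstance
    obtain ⟨g, hg⟩ := exists_surjective_nat (Fin n → ℤ)
    have h1 : E ⊆ ⋃ i, E ∩ cube (0, g i) := by
      intro x hx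
      obtain ⟨i, hi⟩ := hg (cell 0 x)
      refine mem_iUnion.2 ⟨i, hx, ?_⟩
      rw [hi]
      rfl
    apply le_antisymm _ zero_le
    refine (content_mono h1).trans ((content_iUnion_le _).trans ?_)
    simp [hcon]
  obtain ⟨k, hk⟩ := hq
  obtain ⟨K, hKE, hKc, hK0⟩ := exists_compact_content (hE.inter (measurableSet_cube _)) hk
  obtain ⟨μ, h1, h2⟩ := frostman_compact s.2 hKc (hKE.trans inter_subset_right) hK0
  exact ⟨K, hKE.trans inter_subset_left, hKc, μ, h1, h2⟩

/-- **Frostman's lemma** for Borel sets of large dimension, in Euclidean space. -/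
theorem frostman_euclidean {s : ℝ≥0} (hs : 0 < s) {E : Set (EuclideanSpace ℝ (Fin n))}
    (hE : MeasurableSet E) (hd : (s : ℝ≥0∞) < dimH E) :
    ∃ K ⊆ E, IsCompact K ∧ ∃ μ : ProbabilityMeasure (EuclideanSpace ℝ (Fin n)),
      (μ : Measure (EuclideanSpace ℝ (Fin n))) Kᶜ = 0 ∧ ∃ C : ℝ, 0 < C ∧
      ∀ x r, 0 < r → (μ : Measure (EuclideanSpace ℝ (Fin n))) (Metric.closedBall x r) ≤
        ENNReal.ofReal (C * r ^ (s : ℝ)) := by
  let e : EuclideanSpace ℝ (Fin n) ≃L[ℝ] (Fin n → ℝ) := EuclideanSpace.equiv (Fin n) ℝ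
  have hee : ∀ x y, dist (e x) (e y) ≤ dist x y := by
    intro x y
    have h := (PiLp.lipschitzWith_ofLp (p := 2) (β := fun _ : Fin n => ℝ)).dist_le_mul x y
    rw [NNReal.coe_one, one_mul] at h
    exact h
  have hE' : MeasurableSet (e.symm ⁻¹' E) := e.symm.continuous.measurable hE
  have himg : e.symm ⁻¹' E = e '' E := by
    ext y
    constructor
    · intro hy
      exact ⟨e.symm y, hy, e.apply_symm_apply y⟩
    · rintro ⟨x, hx, rfl⟩
      simpa using hx
  have hd' : (s : ℝ≥0∞) < dimH (e.symm ⁻¹' E) := by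
    rw [himg, e.dimH_image]
    exact hd
  obtain ⟨K, hKE, hKc, μ, hμK, C, hC, hμ⟩ := frostman_pi hs hE' hd'
  refine ⟨e.symm '' K, ?_, hKc.image e.symm.continuous, μ.map e.symm.continuous.aemeasurable, ?_,
    C, hC, ?_⟩
  · rintro _ ⟨y, hy, rfl⟩
    exact hKE hy
  · rw [ProbabilityMeasure.toMeasure_map, Measure.map_apply e.symm.continuous.measurable
      (hKc.image e.symm.continuous).isClosed.measurableSet.compl]
    refine measure_mono_null ?_ hμK
    intro y hy hyK
    exact hy (mem_image_of_mem _ hyK)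
  · intro x r hr
    rw [ProbabilityMeasure.toMeasure_map, Measure.map_apply e.symm.continuous.measurable
      Metric.isClosed_closedBall.measurableSet]
    refine (measure_mono ?_).trans (hμ (e x) r hr)
    intro y hy
    rw [Metric.mem_closedBall]
    calc dist y (e x) = dist (e (e.symm y)) (e x) := by rw [e.apply_symm_apply]
      _ ≤ dist (e.symm y) x := hee _ _
      _ ≤ r := hy

end Pool.Agent.Lib.GMT
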